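import Pool.Agent.Helper19.RD.Stmts8

/-! Row CLU of project RD, eighth form: a large set of pairwise close points. -/

set_option autoImplicit false

namespace Pool.Agent.Helper19.RD

open Finset Pool.Agent.Helper18.RD

theorem st_CLU : ST_CLU := by
  classical
  intro J U e η hJ he hη hG
  have hw : ∀ p ∈ U, (0 : ℝ) ≤ 1 / p := fun p _ => by positivity
  -- a point with few bad partners
  obtain ⟨i0, hi0, hb⟩ : ∃ i0 ∈ J, 4 * (J.filter (fun j => (i0, j) ∈ GG J U e η)).card ≤
      J.card := by
    by_contra hcon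
    push Not at hcon
    have h1 : (GG J U e η).card =
        ∑ i ∈ J, (J.filter (fun j => (i, j) ∈ GG J U e η)).card := by
      have h2 : GG J U e η = (J ×ˢ J).filter (fun x => x ∈ GG J U e η) := by
        ext x
        rw [mem_filter]
        refine ⟨fun h => ⟨?_, h⟩, fun h => h.2⟩
        unfold GG at h
        exact (mem_filter.1 h).1
      conv_lhs => rw [h2, card_filter, sum_product]
      refine sum_congr rfl fun i _ => ?_
      rw [card_filter]
    have h3 : J.card * J.card <
        ∑ i ∈ J, 4 * (J.filter (fun j => (i, j) ∈ GG J U e η)).card := by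
      rw [← smul_eq_mul, ← sum_const]
      exact sum_lt_sum_of_nonempty hJ hcon
    rw [← mul_sum, ← h1, ← sq] at h3
    exact absurd hG (not_le.2 h3)
  obtain ⟨A, hA⟩ : ∃ A, A = J.filter (fun j => Dl U e i0 j < η * VV U) := ⟨_, rfl⟩
  obtain ⟨B, hB⟩ : ∃ B, B = J.filter (fun j => (1 - η) * VV U < Dl U e i0 j) := ⟨_, rfl⟩
  have hcov : J ⊆ (A ∪ B) ∪ J.filter (fun j => (i0, j) ∈ GG J U e η) := by
    intro j hj
    by_cases h1 : Dl U e i0 j < η * VV U
    · rw [hA]
      exact mem_union_left _ (mem_union_left _ (mem_filter.2 ⟨hj, h1⟩))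
    · by_cases h2 : (1 - η) * VV U < Dl U e i0 j
      · rw [hB]
        exact mem_union_left _ (mem_union_right _ (mem_filter.2 ⟨hj, h2⟩))
      · refine mem_union_right _ (mem_filter.2 ⟨hj, ?_⟩)
        unfold GG
        exact mem_filter.2 ⟨mem_product.2 ⟨hi0, hj⟩, not_lt.1 h1, not_lt.1 h2⟩
  have hc : J.card ≤ A.card + B.card + (J.filter (fun j => (i0, j) ∈ GG J U e η)).card :=
    (card_le_card hcov).trans ((card_union_le _ _).trans
      (Nat.add_le_add_right (card_union_le _ _) _))
  -- the weight of a union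
  have hun : ∀ (P Q R : ℕ → Prop) [DecidablePred P] [DecidablePred Q] [DecidablePred R],
      (∀ p, P p → Q p ∨ R p) →
      ∑ p ∈ U.filter P, (1 : ℝ) / p ≤
        ∑ p ∈ U.filter Q, (1 : ℝ) / p + ∑ p ∈ U.filter R, (1 : ℝ) / p := by
    intro P Q R _ _ _ h
    rw [sum_filter, sum_filter, sum_filter, ← sum_add_distrib]
    refine sum_le_sum fun p hp => ?_
    have h0 := hw p hp
    by_cases h1 : P p
    · rcases h p h1 with h2 | h2
      · rw [if_pos h1, if_pos h2]
        split_ifs <;> linarith
      · rw [if_pos h1, if_pos h2]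
        split_ifs <;> linarith
    · rw [if_neg h1]
      split_ifs <;> linarith
  have hor : A.card ≤ B.card ∨ B.card ≤ A.card := le_total _ _
  rcases hor with hAB | hAB
  · refine ⟨B, by rw [hB]; exact filter_subset _ _, by omega, fun i hi j hj => ?_⟩
    have hi' : (1 - η) * VV U < Dl U e i0 i := by
      rw [hB] at hi
      exact (mem_filter.1 hi).2
    have hj' : (1 - η) * VV U < Dl U e i0 j := by
      rw [hB] at hj
      exact (mem_filter.1 hj).2
    have h1 := hun (fun p => e i p ≠ e j p) (fun p => ¬ e i0 p ≠ e i p)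
      (fun p => ¬ e i0 p ≠ e j p) (by
        intro p hp
        by_contra h2
        push Not at h2
        rcases he i0 p with a | a <;> rcases he i p with b | b <;> rcases he j p with c | c <;>
          rw [a, b, c] at h2 <;> rw [b, c] at hp <;> simp_all)
    have h2 : ∀ l, ∑ p ∈ U.filter (fun p => ¬ e i0 p ≠ e l p), (1 : ℝ) / p =
        VV U - Dl U e i0 l := by
      intro l
      have h3 := sum_filter_add_sum_filter_not U (fun p => e i0 p ≠ e l p)
        (fun p => (1 : ℝ) / p)
      unfold VV Dl
      linarith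
    have h4 := h2 i
    have h5 := h2 j
    have h6 : Dl U e i j = ∑ p ∈ U.filter (fun p => e i p ≠ e j p), (1 : ℝ) / p := rfl
    rw [h6]
    linarith
  · refine ⟨A, by rw [hA]; exact filter_subset _ _, by omega, fun i hi j hj => ?_⟩
    have hi' : Dl U e i0 i < η * VV U := by
      rw [hA] at hi
      exact (mem_filter.1 hi).2
    have hj' : Dl U e i0 j < η * VV U := by
      rw [hA] at hj
      exact (mem_filter.1 hj).2
    have h1 := hun (fun p => e i p ≠ e j p) (fun p => e i0 p ≠ e i p)
      (fun p => e i0 p ≠ e j p) (by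
        intro p hp
        by_contra h2
        push Not at h2
        exact hp (h2.1.symm.trans h2.2))
    have h4 : Dl U e i0 i = ∑ p ∈ U.filter (fun p => e i0 p ≠ e i p), (1 : ℝ) / p := rfl
    have h5 : Dl U e i0 j = ∑ p ∈ U.filter (fun p => e i0 p ≠ e j p), (1 : ℝ) / p := rfl
    have h6 : Dl U e i j = ∑ p ∈ U.filter (fun p => e i p ≠ e j p), (1 : ℝ) / p := rfl
    rw [h6]
    rw [h4] at hi'
    rw [h5] at hj'
    linarith

end Pool.Agent.Helper19.RD
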